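import Pool.Agent.Run7.h371.TB.Iface

/-!
# MP_64ccd3_an, piece CurveFTC (helper327)
-/

set_option autoImplicit false

namespace Run7.h327.TB

open Complex MeasureTheory Filter Topology Set Metric Run7.h371.TB

/-- Fundamental theorem of calculus for complex functions with absolutely continuous parts. -/
theorem ftcC (F F' : ℝ → ℂ) (a b : ℝ)
    (hre : AbsolutelyContinuousOnInterval (fun t => (F t).re) a b)
    (him : AbsolutelyContinuousOnInterval (fun t => (F t).im) a b)
    (hd : ∀ᵐ t, HasDerivAt F (F' t) t) : ∫ t in a..b, F' t = F b - F a := by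
  have h1 : ∀ᵐ t, F' t = ((deriv (fun t => (F t).re) t : ℝ) : ℂ) +
      ((deriv (fun t => (F t).im) t : ℝ) : ℂ) * I := by
    filter_upwards [hd] with t ht
    have e1 : HasDerivAt (fun t => (F t).re) (F' t).re t := by
      exact (reCLM.hasFDerivAt (x := F t)).comp_hasDerivAt t ht
    have e2 : HasDerivAt (fun t => (F t).im) (F' t).im t := by
      exact (imCLM.hasFDerivAt (x := F t)).comp_hasDerivAt t ht
    rw [e1.deriv, e2.deriv]
    exact (re_add_im _).symm
  have h2 : ∫ t in a..b, F' t = ∫ t in a..b, (((deriv (fun t => (F t).re) t : ℝ) : ℂ) +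
      ((deriv (fun t => (F t).im) t : ℝ) : ℂ) * I) := by
    apply intervalIntegral.integral_congr_ae
    filter_upwards [h1] with t ht _ using ht
  have i1 : IntervalIntegrable (fun t => ((deriv (fun t => (F t).re) t : ℝ) : ℂ)) volume a b :=
    ⟨hre.intervalIntegrable_deriv.1.ofReal, hre.intervalIntegrable_deriv.2.ofReal⟩
  have i2 : IntervalIntegrable (fun t => ((deriv (fun t => (F t).im) t : ℝ) : ℂ) * I) volume a b :=
    IntervalIntegrable.mul_const
      ⟨him.intervalIntegrable_deriv.1.ofReal, him.intervalIntegrable_deriv.2.ofReal⟩ I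
  rw [h2, intervalIntegral.integral_add i1 i2, intervalIntegral.integral_ofReal,
    intervalIntegral.integral_mul_const, intervalIntegral.integral_ofReal,
    hre.integral_deriv_eq_sub, him.integral_deriv_eq_sub]
  apply Complex.ext <;> simp

/-- Composition of an admissible radius with a `C^1` function. -/
theorem acomp (ρ : ℝ → ℝ) (hρ : Adm ρ) (φ : ℝ → ℝ) (hφ : ∀ x : ℝ, 0 < x → ContDiffAt ℝ 1 φ x)
    (a b : ℝ) : AbsolutelyContinuousOnInterval (fun t => φ (ρ t)) a b := by
  obtain ⟨L, hL⟩ := hρ.lip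
  obtain ⟨R, hR⟩ := (isCompact_uIcc (a := a) (b := b)).exists_bound_of_continuousOn
    hL.continuous.continuousOn
  have hc : ContDiffOn ℝ 1 φ (Icc (1 / 2) R) := fun x hx =>
    (hφ x (by linarith [hx.1])).contDiffWithinAt
  obtain ⟨K, hK⟩ := hc.exists_lipschitzOnWith (by decide) (convex_Icc _ _) isCompact_Icc
  have hm : MapsTo ρ (uIcc a b) (Icc (1 / 2) R) := fun t ht =>
    ⟨hρ.half t, (le_abs_self _).trans (by simpa using hR t ht)⟩
  exact (hK.comp (hL.lipschitzOnWith (s := uIcc a b)) hm).absolutelyContinuousOnInterval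

theorem hasDeriv_u (t : ℝ) : HasDerivAt u (u t * I) t := by
  have h1 : HasDerivAt (fun t : ℝ => (t : ℂ) * I) (1 * I) t := (ofRealCLM.hasDerivAt (x := t)).mul_const I
  have h2 := h1.cexp
  rw [one_mul] at h2
  exact h2

theorem hasDeriv_w (ρ : ℝ → ℝ) (hρ : Adm ρ) (t : ℝ) (h : DifferentiableAt ℝ ρ t) :
    HasDerivAt (w ρ) (w ρ t * κ ρ t) t := by
  have h1 : HasDerivAt (fun t => (ρ t : ℂ)) ((deriv ρ t : ℝ) : ℂ) t := h.hasDerivAt.ofReal_comp
  have h2 := h1.mul (hasDeriv_u t)
  have h0 : (ρ t : ℂ) ≠ 0 := by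
    have := hρ.half t
    exact_mod_cast (by linarith : (0 : ℝ) < ρ t).ne'
  convert! h2 using 1
  simp only [w, κ, ofReal_div]
  field_simp
  ring

theorem ae_diff (ρ : ℝ → ℝ) (hρ : Adm ρ) : ∀ᵐ t, DifferentiableAt ℝ ρ t := by
  obtain ⟨L, hL⟩ := hρ.lip
  exact hL.ae_differentiableAt_real

theorem u_zpow (t : ℝ) (m : ℤ) : u t ^ m = ((Real.cos (m * t) : ℝ) : ℂ) + ((Real.sin (m * t) : ℝ) : ℂ) * I := by
  rw [u, ← Complex.exp_int_mul]
  have : (m : ℂ) * ((t : ℂ) * I) = (((m * t : ℝ)) : ℂ) * I := by push_cast; ring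
  rw [this, Complex.exp_mul_I]
  push_cast
  rfl

theorem w_zpow (ρ : ℝ → ℝ) (t : ℝ) (m : ℤ) : w ρ t ^ m =
    ((ρ t ^ m * Real.cos (m * t) : ℝ) : ℂ) + ((ρ t ^ m * Real.sin (m * t) : ℝ) : ℂ) * I := by
  rw [w, mul_zpow, u_zpow]
  push_cast
  ring

theorem w_ne (ρ : ℝ → ℝ) (hρ : Adm ρ) (t : ℝ) : w ρ t ≠ 0 := by
  have h0 : (ρ t : ℂ) ≠ 0 := by
    have := hρ.half t
    exact_mod_cast (by linarith : (0 : ℝ) < ρ t).ne'
  exact mul_ne_zero h0 (Complex.exp_ne_zero _)

theorem per0 (ρ : ℝ → ℝ) (hρ : Adm ρ) : ρ (2 * Real.pi) = ρ 0 := by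
  have := hρ.per 0
  simpa using this

theorem zdiff (m : ℤ) (x : ℝ) (hx : 0 < x) : ContDiffAt ℝ 1 (fun x : ℝ => x ^ m) x := by
  rcases m with n | n
  · simpa using (contDiff_id.pow n).contDiffAt
  · have h : ContDiffAt ℝ 1 (fun x : ℝ => (x ^ (n + 1))⁻¹) x :=
      ((contDiff_id.pow (n + 1)).contDiffAt).inv (by simpa using hx.ne')
    simpa [zpow_negSucc] using h

theorem t_CurveFTC : CurveFTC := by
  intro ρ hρ
  refine ⟨fun m hm => ?_, ?_⟩
  · have hA : AbsolutelyContinuousOnInterval (fun t => ρ t ^ m) 0 (2 * Real.pi) :=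
      acomp ρ hρ (fun x => x ^ m) (fun x hx => zdiff m x hx) _ _
    have hcos : AbsolutelyContinuousOnInterval (fun t : ℝ => Real.cos (m * t)) 0 (2 * Real.pi) :=
      (ContDiff.contDiffOn (by fun_prop)).absolutelyContinuousOnInterval
    have hsin : AbsolutelyContinuousOnInterval (fun t : ℝ => Real.sin (m * t)) 0 (2 * Real.pi) :=
      (ContDiff.contDiffOn (by fun_prop)).absolutelyContinuousOnInterval
    have hre : AbsolutelyContinuousOnInterval (fun t => (w ρ t ^ m).re) 0 (2 * Real.pi) := by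
      have := hA.fun_mul hcos
      convert! this using 2 with t
      rw [w_zpow]
      simp only [add_re, ofReal_re, mul_re, ofReal_im, I_re, I_im, mul_zero, zero_mul, sub_zero,
        add_zero, add_im, mul_im, mul_one, zero_add, sub_self]
    have him : AbsolutelyContinuousOnInterval (fun t => (w ρ t ^ m).im) 0 (2 * Real.pi) := by
      have := hA.fun_mul hsin
      convert! this using 2 with t
      rw [w_zpow]
      simp only [add_re, ofReal_re, mul_re, ofReal_im, I_re, I_im, mul_zero, zero_mul, sub_zero,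
        add_zero, add_im, mul_im, mul_one, zero_add, sub_self]
    have hd : ∀ᵐ t, HasDerivAt (fun t => w ρ t ^ m) ((m : ℂ) * (w ρ t ^ m * κ ρ t)) t := by
      filter_upwards [ae_diff ρ hρ] with t ht
      have h1 := hasDeriv_w ρ hρ t ht
      have h2 := (hasDerivAt_zpow m (w ρ t) (Or.inl (w_ne ρ hρ t))).comp t h1
      convert! h2 using 1
      rw [zpow_sub_one₀ (w_ne ρ hρ t)]
      field_simp [w_ne ρ hρ t]
    have h := ftcC _ _ _ _ hre him hd
    have e : w ρ (2 * Real.pi) = w ρ 0 := by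
      simp [w, u, per0 ρ hρ, Complex.exp_two_pi_mul_I]
    rw [e, sub_self, intervalIntegral.integral_const_mul] at h
    rcases mul_eq_zero.mp h with h | h
    · exact absurd (by exact_mod_cast h) hm
    · exact h
  · have hA : AbsolutelyContinuousOnInterval (fun t => Real.log (ρ t)) 0 (2 * Real.pi) :=
      acomp ρ hρ Real.log (fun x hx => Real.contDiffAt_log.mpr hx.ne') _ _
    have hid : AbsolutelyContinuousOnInterval (fun t : ℝ => t) 0 (2 * Real.pi) :=
      (ContDiff.contDiffOn (by fun_prop)).absolutelyContinuousOnInterval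
    have hd : ∀ᵐ t, HasDerivAt (fun t : ℝ => ((Real.log (ρ t) : ℝ) : ℂ) + (t : ℂ) * I) (κ ρ t) t := by
      filter_upwards [ae_diff ρ hρ] with t ht
      have h0 : ρ t ≠ 0 := by
        have := hρ.half t
        exact (by linarith : (0 : ℝ) < ρ t).ne'
      have h1 := (ht.hasDerivAt.log h0).ofReal_comp
      have h2 : HasDerivAt (fun t : ℝ => (t : ℂ) * I) (1 * I) t :=
        (ofRealCLM.hasDerivAt (x := t)).mul_const I
      have h3 := h1.add h2
      convert! h3 using 1
      simp only [κ]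
      ring
    have h := ftcC _ _ 0 (2 * Real.pi) (by simpa using hA) (by simpa using hid) hd
    rw [h, per0 ρ hρ]
    push_cast
    ring

end Run7.h327.TB
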